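import Pool.Agent.Y285.SD.A1b

set_option autoImplicit false

/-!
# Job A1 (helper285): Lemma C, the number of non-parallel pairs `(h, c h)` in dyadic boxes
-/

namespace Pool.Agent.Y285.SD

open Finset Pool.Agent.H935R2.PS Pool.Agent.Y258
open Pool.Agent.H935R2.PS.E4 (SS mem_SS vma_lt vma_inj pt_mem cntl mem_coinc)

variable {q : ℕ} {ι : Type} [Fintype ι] [DecidableEq ι]

theorem prod_le_three (θ : ι → ℝ) (h0 : ∀ a, 0 ≤ θ a) (h1 : ∀ a, θ a ≤ 1) (i j k : ι)
    (hij : i ≠ j) (hik : i ≠ k) (hjk : j ≠ k) : ∏ a, θ a ≤ θ i * θ j * θ k := by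
  rw [← Finset.prod_mul_prod_compl ({i, j, k} : Finset ι) θ]
  have e : ∏ a ∈ ({i, j, k} : Finset ι), θ a = θ i * θ j * θ k := by
    rw [prod_insert (by simp [hij, hik]), prod_insert (by simp [hjk]), prod_singleton, mul_assoc]
  rw [e]
  have h2 : ∏ a ∈ ({i, j, k} : Finset ι)ᶜ, θ a ≤ 1 := prod_le_one (fun a _ => h0 a) (fun a _ => h1 a)
  exact mul_le_of_le_one_right (mul_nonneg (mul_nonneg (h0 i) (h0 j)) (h0 k)) h2

open Classical in
/-- the vectors counted for one slope -/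
noncomputable def nc [Fact q.Prime] (c : ZMod q) (b b' : ι → ℕ) : Finset (ι → ZMod q) :=
  univ.filter (fun h => (∀ a, h a ∈ TT c (b a) (b' a)) ∧ ¬ Prl h (fun a => c * h a))

theorem mem_nc [Fact q.Prime] (c : ZMod q) (b b' : ι → ℕ) (h : ι → ZMod q) :
    h ∈ nc c b b' ↔ (∀ a, h a ∈ TT c (b a) (b' a)) ∧ ¬ Prl h (fun a => c * h a) := by
  classical
  unfold nc
  rw [mem_filter]
  simp only [mem_univ, true_and]

open Classical in
theorem card_NP_le [Fact q.Prime] (b b' : ι → ℕ) :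
    (NP (q := q) b b').card ≤ ∑ c ∈ (univ : Finset (ZMod q)).filter (fun c => c ≠ 0),
      (nc c b b').card := by
  rw [Finset.card_eq_sum_card_fiberwise (f := fun p => p.2)
    (t := (univ : Finset (ZMod q)).filter (fun c => c ≠ 0))]
  · apply sum_le_sum
    intro c _
    refine card_le_card_of_injOn (fun p => p.1) ?_ ?_
    · rintro ⟨h, c'⟩ hp
      rw [mem_coe, mem_filter] at hp
      obtain ⟨hp, hc⟩ := hp
      unfold NP at hp
      rw [mem_filter] at hp
      simp only at hc hp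
      subst hc
      rw [mem_coe, mem_nc]
      refine ⟨fun a => ?_, hp.2.2.2⟩
      rw [mem_TT]
      exact hp.2.2.1 a
    · rintro ⟨h, c1⟩ hp ⟨h', c2⟩ hp' he
      rw [mem_coe, mem_filter] at hp hp'
      simp only at he
      have e1 := hp.2
      have e2 := hp'.2
      simp only at e1 e2
      rw [he, e1, e2]
  · rintro ⟨h, c⟩ hp
    rw [mem_coe] at hp
    unfold NP at hp
    rw [mem_filter] at hp
    rw [mem_coe, mem_filter]
    exact ⟨mem_univ _, hp.2.1⟩

theorem nc_card_le [Fact q.Prime] (c : ZMod q) (b b' : ι → ℕ) :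
    ((nc c b b').card : ℝ) ≤ ∏ a, ((TT c (b a) (b' a)).card : ℝ) := by
  classical
  have h1 : nc c b b' ⊆ Fintype.piFinset (fun a => TT c (b a) (b' a)) := by
    intro h hh
    rw [mem_nc] at hh
    rw [Fintype.mem_piFinset]
    exact hh.1
  have h2 := card_le_card h1
  rw [Fintype.card_piFinset] at h2
  exact_mod_cast h2

open Classical in
/-- second moment terms -/
noncomputable def xx (c : ZMod q) (b b' : ι → ℕ) (u : ι) : ℝ :=
  if HG c (b u) (b' u) then rr c (b u) (b' u) ^ 2 else 0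

open Classical in
/-- mixed terms -/
noncomputable def yy (c : ZMod q) (b b' : ι → ℕ) (i j : ι) : ℝ :=
  if HG c (b i) (b' i) ∧ HG c (b j) (b' j) ∧ NPg c (b i) (b' i) (b j) (b' j) then
    rr c (b i) (b' i) * rr c (b j) (b' j) ^ 2 else 0

omit [Fintype ι] [DecidableEq ι] in
theorem xx_nonneg (c : ZMod q) (b b' : ι → ℕ) (u : ι) : 0 ≤ xx c b b' u := by
  unfold xx
  split_ifs
  · positivity
  · exact le_rfl

omit [Fintype ι] [DecidableEq ι] in
theorem yy_nonneg (c : ZMod q) (b b' : ι → ℕ) (i j : ι) : 0 ≤ yy c b b' i j := by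
  unfold yy
  split_ifs
  · have := rr_pos c (b i) (b' i)
    positivity
  · exact le_rfl

theorem yy_le_sum (c : ZMod q) (b b' : ι → ℕ) (i j : ι) :
    yy c b b' i j ≤ ∑ i, ∑ j, yy c b b' i j := by
  refine le_trans (single_le_sum (f := fun j => yy c b b' i j) (fun j _ => yy_nonneg c b b' i j)
    (mem_univ j)) ?_
  exact single_le_sum (f := fun i => ∑ j, yy c b b' i j)
    (fun i _ => sum_nonneg fun j _ => yy_nonneg c b b' i j) (mem_univ i)

/-- all boxes have generators, not all parallel -/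
theorem case3 [Fact q.Prime] (c : ZMod q) (b b' : ι → ℕ) (hcard : 3 ≤ Fintype.card ι)
    (hG : ∀ a, HG c (b a) (b' a)) (i j : ι) (hij : NPg c (b i) (b' i) (b j) (b' j)) :
    ∏ a, rr c (b a) (b' a) ≤ ∑ i, ∑ j, yy c b b' i j := by
  have hne : i ≠ j := by
    intro h
    subst h
    apply hij
    ring
  obtain ⟨w, hw⟩ : ∃ w : ι, w ≠ i ∧ w ≠ j := by
    by_contra hcon
    push Not at hcon
    have : (univ : Finset ι) ⊆ {i, j} := by
      intro w _
      rw [mem_insert, mem_singleton]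
      by_cases h : w = i
      · exact Or.inl h
      · exact Or.inr (hcon w h)
    have h2 := card_le_card this
    rw [card_univ] at h2
    have h3 := card_le_two (a := i) (b := j)
    omega
  have h3 := prod_le_three (fun a => rr c (b a) (b' a)) (fun a => (rr_pos _ _ _).le)
    (fun a => rr_le_one _ _ _) i j w hne hw.1.symm hw.2.symm
  refine h3.trans ?_
  set ri := rr c (b i) (b' i) with hri
  set rj := rr c (b j) (b' j) with hrj
  set rw' := rr c (b w) (b' w) with hrw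
  have pi : 0 < ri := rr_pos _ _ _
  have pj : 0 < rj := rr_pos _ _ _
  have pw : 0 < rw' := rr_pos _ _ _
  have hy : ∀ u v : ι, NPg c (b u) (b' u) (b v) (b' v) →
      rr c (b u) (b' u) * rr c (b v) (b' v) ^ 2 ≤ ∑ i, ∑ j, yy c b b' i j := by
    intro u v huv
    refine le_trans (le_of_eq ?_) (yy_le_sum c b b' u v)
    unfold yy
    rw [if_pos ⟨hG u, hG v, huv⟩]
  have hji : NPg c (b j) (b' j) (b i) (b' i) := by
    intro h
    apply hij
    linear_combination (-1 : ℤ) * h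
  by_cases h1 : rw' ≤ rj
  · refine le_trans ?_ (hy i j hij)
    rw [← hri, ← hrj]
    have := mul_le_mul_of_nonneg_left h1 (mul_pos pi pj).le
    nlinarith
  · by_cases h2 : rw' ≤ ri
    · refine le_trans ?_ (hy j i hji)
      rw [← hri, ← hrj]
      have := mul_le_mul_of_nonneg_left h2 (mul_pos pi pj).le
      nlinarith
    · push Not at h1 h2
      by_cases h4 : NPg c (b i) (b' i) (b w) (b' w)
      · refine le_trans ?_ (hy i w h4)
        rw [← hri, ← hrw]
        have := mul_le_mul_of_nonneg_left h1.le (mul_pos pi pw).le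
        nlinarith
      · have h5 : NPg c (b j) (b' j) (b w) (b' w) := by
          intro h5
          unfold NPg at h4
          push Not at h4
          apply hij
          have hw1 := (gg_spec c (b w) (b' w) (hG w)).2.1
          apply mul_right_cancel₀ hw1
          linear_combination (gg c (b j) (b' j)).1 * h4 - (gg c (b i) (b' i)).1 * h5
        refine le_trans ?_ (hy j w h5)
        rw [← hrj, ← hrw]
        have := mul_le_mul_of_nonneg_left h2.le (mul_pos pj pw).le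
        nlinarith

/-- the number of vectors for one slope -/
theorem nc_le [Fact q.Prime] (c : ZMod q) (hc : c ≠ 0) (b b' : ι → ℕ)
    (hcard : 3 ≤ Fintype.card ι) (hb : ∀ a, b a < La q) (hb' : ∀ a, b' a < La q) :
    ((nc c b b').card : ℝ) ≤
      ∑ a1, ((TT c (b a1) (b' a1)).card : ℝ) * ∏ a ∈ univ.erase a1, (160 * 2 ^ (b a + b' a) / (q:ℝ)) +
      160 ^ Fintype.card ι * (∏ a, √((2:ℝ) ^ (b a + b' a))) *
        ((∑ a, √((2:ℝ) ^ (b a + b' a)) / q) * ∑ u, xx c b b' u + ∑ i, ∑ j, yy c b b' i j) := by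
  have hq0 : (0 : ℝ) < q := by exact_mod_cast (Fact.out : q.Prime).pos
  have hP0 : (0:ℝ) ≤ 160 ^ Fintype.card ι * (∏ a, √((2:ℝ) ^ (b a + b' a))) := by positivity
  have hS0 : (0:ℝ) ≤ ∑ a, √((2:ℝ) ^ (b a + b' a)) / q := by positivity
  have hX0 : 0 ≤ ∑ u, xx c b b' u := sum_nonneg fun u _ => xx_nonneg c b b' u
  have hY0 : 0 ≤ ∑ i, ∑ j, yy c b b' i j :=
    sum_nonneg fun i _ => sum_nonneg fun j _ => yy_nonneg c b b' i j
  have hF0 : ∀ a1 : ι, (0:ℝ) ≤ ((TT c (b a1) (b' a1)).card : ℝ) *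
      ∏ a ∈ univ.erase a1, (160 * 2 ^ (b a + b' a) / (q:ℝ)) := fun a1 => by positivity
  have hFs0 : (0:ℝ) ≤ ∑ a1, ((TT c (b a1) (b' a1)).card : ℝ) *
      ∏ a ∈ univ.erase a1, (160 * 2 ^ (b a + b' a) / (q:ℝ)) := sum_nonneg fun a _ => hF0 a
  have hR0 : (0:ℝ) ≤ 160 ^ Fintype.card ι * (∏ a, √((2:ℝ) ^ (b a + b' a))) *
        ((∑ a, √((2:ℝ) ^ (b a + b' a)) / q) * ∑ u, xx c b b' u + ∑ i, ∑ j, yy c b b' i j) := by
    positivity
  rcases (nc c b b').eq_empty_or_nonempty with he | ⟨h, hh⟩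
  · rw [he]
    simp only [card_empty, Nat.cast_zero]
    exact add_nonneg hFs0 hR0
  rw [mem_nc] at hh
  obtain ⟨hT, hnp⟩ := hh
  have hne : ∀ a, (TT c (b a) (b' a)).Nonempty := fun a => ⟨h a, hT a⟩
  have hle := nc_card_le c b b'
  -- product bound through the factors `th`
  have hth : ((nc c b b').card : ℝ) ≤ 160 ^ Fintype.card ι * (∏ a, √((2:ℝ) ^ (b a + b' a))) *
      ∏ a, th c (b a) (b' a) := by
    refine hle.trans ?_
    have : ∏ a, ((TT c (b a) (b' a)).card : ℝ) ≤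
        ∏ a, (160 * √((2:ℝ) ^ (b a + b' a)) * th c (b a) (b' a)) :=
      prod_le_prod (fun a _ => Nat.cast_nonneg _)
        (fun a _ => tau_le c hc (b a) (b' a) (hb a) (hb' a) (hne a))
    refine this.trans (le_of_eq ?_)
    rw [prod_mul_distrib, prod_mul_distrib, prod_const, card_univ]
  by_cases hA : ∃ u v : ι, u ≠ v ∧ HG c (b u) (b' u) ∧ HG c (b v) (b' v)
  · obtain ⟨u, v, huv, hu, hv⟩ := hA
    refine le_trans ?_ (le_add_of_nonneg_left hFs0)
    refine hth.trans (mul_le_mul_of_nonneg_left ?_ hP0)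
    by_cases hall : ∀ a, HG c (b a) (b' a)
    · refine le_trans ?_ (le_add_of_nonneg_left (mul_nonneg hS0 hX0))
      have e : ∀ a, th c (b a) (b' a) = rr c (b a) (b' a) := fun a => if_pos (hall a)
      rw [prod_congr rfl fun a _ => e a]
      -- non-parallel generators
      unfold Prl at hnp
      push Not at hnp
      obtain ⟨i, j, hij⟩ := hnp
      apply case3 c b b' hcard hall i j
      intro hpar
      apply hij
      have hmem : ∀ a, ∃ m : ℤ, (h a).valMinAbs = m * (gg c (b a) (b' a)).1 ∧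
          (c * h a).valMinAbs = m * (gg c (b a) (b' a)).2 := by
        intro a
        have h1 := (mem_TT c (b a) (b' a) (h a)).mp (hT a)
        exact (gg_spec c (b a) (b' a) (hall a)).2.2.2 _ (pt_mem h1.2.1 h1.2.2)
      obtain ⟨mi, ei1, ei2⟩ := hmem i
      obtain ⟨mj, ej1, ej2⟩ := hmem j
      rw [ei1, ej2, ej1, ei2]
      linear_combination (mi * mj) * hpar
    · push Not at hall
      obtain ⟨a0, ha0⟩ := hall
      refine le_trans ?_ (le_add_of_nonneg_right hY0)
      have h0u : a0 ≠ u := fun h => ha0 (h ▸ hu)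
      have h0v : a0 ≠ v := fun h => ha0 (h ▸ hv)
      have h3 := prod_le_three (fun a => th c (b a) (b' a)) (fun a => (th_pos _ _ _).le)
        (fun a => th_le_one c (b a) (b' a) (hb a) (hb' a)) a0 u v h0u h0v huv
      refine h3.trans ?_
      have e0 : th c (b a0) (b' a0) = √(2 ^ (b a0 + b' a0)) / q := if_neg ha0
      have eu : th c (b u) (b' u) = rr c (b u) (b' u) := if_pos hu
      have ev : th c (b v) (b' v) = rr c (b v) (b' v) := if_pos hv
      rw [e0, eu, ev, mul_assoc]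
      apply mul_le_mul
      · exact single_le_sum (f := fun a => √((2:ℝ) ^ (b a + b' a)) / q)
          (fun a _ => by positivity) (mem_univ a0)
      · have xu : xx c b b' u = rr c (b u) (b' u) ^ 2 := if_pos hu
        have xv : xx c b b' v = rr c (b v) (b' v) ^ 2 := if_pos hv
        have h4 : xx c b b' u + xx c b b' v ≤ ∑ u, xx c b b' u := by
          rw [← sum_pair huv]
          exact sum_le_sum_of_subset_of_nonneg (subset_univ _) (fun a _ _ => xx_nonneg c b b' a)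
        rw [xu, xv] at h4
        refine le_trans ?_ h4
        nlinarith [sq_nonneg (rr c (b u) (b' u) - rr c (b v) (b' v)), rr_pos c (b u) (b' u),
          rr_pos c (b v) (b' v), mul_pos (rr_pos c (b u) (b' u)) (rr_pos c (b v) (b' v))]
      · have := rr_pos c (b u) (b' u)
        have := rr_pos c (b v) (b' v)
        positivity
      · exact hS0
  · -- at most one generator
    push Not at hA
    obtain ⟨a1, ha1⟩ : ∃ a1 : ι, ∀ a, a ≠ a1 → ¬ HG c (b a) (b' a) := by
      by_cases hE : ∃ a1, HG c (b a1) (b' a1)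
      · obtain ⟨a1, h1⟩ := hE
        exact ⟨a1, fun a ha => hA a1 a ha.symm h1⟩
      · push Not at hE
        have : 0 < Fintype.card ι := by omega
        obtain ⟨a1⟩ := Fintype.card_pos_iff.mp this
        exact ⟨a1, fun a _ => hE a⟩
    refine le_trans ?_ (le_add_of_nonneg_right hR0)
    refine le_trans ?_ (single_le_sum (f := fun a1 => ((TT c (b a1) (b' a1)).card : ℝ) *
      ∏ a ∈ univ.erase a1, (160 * 2 ^ (b a + b' a) / (q:ℝ))) (fun a _ => hF0 a) (mem_univ a1))
    refine hle.trans ?_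
    rw [← mul_prod_erase univ _ (mem_univ a1)]
    apply mul_le_mul_of_nonneg_left _ (Nat.cast_nonneg _)
    apply prod_le_prod (fun a _ => Nat.cast_nonneg _)
    intro a ha
    rcases dich c hc (b a) (b' a) (hb a) (hb' a) (hne a) with h1 | h1
    · exact absurd h1 (ha1 a (ne_of_mem_erase ha))
    · exact h1

/-- the case of at least three coordinates -/
theorem NP_le3 [Fact q.Prime] (hs : Suit q) (b b' : ι → ℕ)
    (hcard : 3 ≤ Fintype.card ι) (hb : ∀ a, b a < La q) (hb' : ∀ a, b' a < La q) :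
    ((NP (q := q) b b').card : ℝ) ≤
      4 * Fintype.card ι * 160 ^ Fintype.card ι *
        ((2:ℝ) ^ (∑ a, (b a + b' a)) / (q:ℝ) ^ (Fintype.card ι - 1)) +
      160 ^ Fintype.card ι * (16 * Fintype.card ι * ((La q : ℝ) + 1) ^ 2 +
        Fintype.card ι * ((La q : ℝ) + 1) ^ 4 * 2 ^ (7 * uu q)) *
      (√((2:ℝ) ^ (∑ a, (b a + b' a))) * ∑ a, √((2:ℝ) ^ (b a + b' a)) / q) := by
  classical
  have hq0 : (0 : ℝ) < q := by exact_mod_cast (Fact.out : q.Prime).pos
  set κ := Fintype.card ι with hκ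
  set C := (univ : Finset (ZMod q)).filter (fun c => c ≠ 0) with hC
  set S : ℝ := ∑ a, √((2:ℝ) ^ (b a + b' a)) / q with hS
  set P : ℝ := ∏ a, √((2:ℝ) ^ (b a + b' a)) with hP
  have hP' : √((2:ℝ) ^ (∑ a, (b a + b' a))) = P := by
    rw [hP, ← Finset.prod_pow_eq_pow_sum, ← Real.sqrt_prod _ fun l _ => by positivity]
  have hS0 : 0 ≤ S := by positivity
  have hP0 : 0 ≤ P := by positivity
  have h1 : ((NP (q := q) b b').card : ℝ) ≤ ∑ c ∈ C, ((nc c b b').card : ℝ) := by
    exact_mod_cast card_NP_le b b'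
  have h2 : ∑ c ∈ C, ((nc c b b').card : ℝ) ≤ ∑ c ∈ C,
      (∑ a1, ((TT c (b a1) (b' a1)).card : ℝ) * ∏ a ∈ univ.erase a1, (160 * 2 ^ (b a + b' a) / (q:ℝ)) +
      160 ^ κ * P * (S * ∑ u, xx c b b' u + ∑ i, ∑ j, yy c b b' i j)) := by
    apply sum_le_sum
    intro c hc
    exact nc_le c (mem_filter.mp hc).2 b b' hcard hb hb'
  refine h1.trans (h2.trans ?_)
  rw [sum_add_distrib, ← mul_sum, sum_add_distrib, ← mul_sum]
  -- first term
  have t1 : ∑ c ∈ C, ∑ a1, ((TT c (b a1) (b' a1)).card : ℝ) *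
      ∏ a ∈ univ.erase a1, (160 * 2 ^ (b a + b' a) / (q:ℝ)) ≤
      4 * κ * 160 ^ κ * ((2:ℝ) ^ (∑ a, (b a + b' a)) / (q:ℝ) ^ (κ - 1)) := by
    rw [sum_comm]
    have : ∀ a1 ∈ (univ : Finset ι), ∑ c ∈ C, ((TT c (b a1) (b' a1)).card : ℝ) *
        ∏ a ∈ univ.erase a1, (160 * 2 ^ (b a + b' a) / (q:ℝ)) ≤
        4 * 160 ^ κ * ((2:ℝ) ^ (∑ a, (b a + b' a)) / (q:ℝ) ^ (κ - 1)) := by
      intro a1 _
      rw [← sum_mul]
      have h3 := mul_le_mul_of_nonneg_right (sumT (q := q) (b a1) (b' a1))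
        (show (0:ℝ) ≤ ∏ a ∈ univ.erase a1, (160 * 2 ^ (b a + b' a) / (q:ℝ)) by positivity)
      refine h3.trans ?_
      have e1 : ∏ a ∈ univ.erase a1, (160 * (2:ℝ) ^ (b a + b' a) / (q:ℝ)) =
          (160 / q) ^ (κ - 1) * ∏ a ∈ univ.erase a1, (2:ℝ) ^ (b a + b' a) := by
        have : ∀ a ∈ univ.erase a1, (160 * (2:ℝ) ^ (b a + b' a) / (q:ℝ)) =
            160 / q * 2 ^ (b a + b' a) := by
          intro a _
          ring
        rw [prod_congr rfl this, prod_mul_distrib, prod_const, card_erase_of_mem (mem_univ a1),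
          card_univ]
      have e2 : (2:ℝ) ^ (∑ a, (b a + b' a)) =
          2 ^ (b a1 + b' a1) * ∏ a ∈ univ.erase a1, (2:ℝ) ^ (b a + b' a) := by
        rw [← Finset.prod_pow_eq_pow_sum, ← mul_prod_erase univ _ (mem_univ a1)]
      rw [e1, e2, div_pow]
      have h160 : (160:ℝ) ^ (κ - 1) ≤ 160 ^ κ := pow_le_pow_right₀ (by norm_num) (by omega)
      set M : ℝ := ∏ a ∈ univ.erase a1, (2:ℝ) ^ (b a + b' a) with hM
      have hM0 : 0 ≤ M := by positivity
      calc 4 * (2:ℝ) ^ (b a1 + b' a1) * (160 ^ (κ - 1) / (q:ℝ) ^ (κ - 1) * M)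
          = 160 ^ (κ - 1) * (4 * (2 ^ (b a1 + b' a1) * M / (q:ℝ) ^ (κ - 1))) := by ring
        _ ≤ 160 ^ κ * (4 * (2 ^ (b a1 + b' a1) * M / (q:ℝ) ^ (κ - 1))) :=
            mul_le_mul_of_nonneg_right h160 (by positivity)
        _ = _ := by ring
    refine (sum_le_sum this).trans (le_of_eq ?_)
    rw [sum_const, card_univ, nsmul_eq_mul]
    ring
  -- second term
  have t2 : ∑ c ∈ C, ∑ u, xx c b b' u ≤ 16 * κ * ((La q : ℝ) + 1) ^ 2 := by
    rw [sum_comm]
    have : ∀ u ∈ (univ : Finset ι), ∑ c ∈ C, xx c b b' u ≤ 16 * ((La q : ℝ) + 1) ^ 2 := by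
      intro u _
      have h9 : ∑ c : ZMod q, xx c b b' u ≤ 16 * ((La q : ℝ) + 1) ^ 2 := by
        unfold xx
        rw [← sum_filter]
        exact sumX (b u) (b' u) (hb u) (hb' u)
      exact le_trans (sum_le_sum_of_subset_of_nonneg (subset_univ C)
        (fun c _ _ => xx_nonneg c b b' u)) h9
    refine (sum_le_sum this).trans (le_of_eq ?_)
    rw [sum_const, card_univ, nsmul_eq_mul]
    ring
  -- third term
  have t3 : ∑ c ∈ C, ∑ i, ∑ j, yy c b b' i j ≤
      κ * ((La q : ℝ) + 1) ^ 4 * 2 ^ (7 * uu q) * S := by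
    rw [sum_comm]
    have : ∀ i ∈ (univ : Finset ι), ∑ c ∈ C, ∑ j, yy c b b' i j ≤
        κ * (((La q : ℝ) + 1) ^ 4 * 2 ^ (7 * uu q) * (√((2:ℝ) ^ (b i + b' i)) / q)) := by
      intro i _
      rw [sum_comm]
      have h4 : ∀ j ∈ (univ : Finset ι), ∑ c ∈ C, yy c b b' i j ≤
          ((La q : ℝ) + 1) ^ 4 * 2 ^ (7 * uu q) * (√((2:ℝ) ^ (b i + b' i)) / q) := by
        intro j _
        have h9 : ∑ c : ZMod q, yy c b b' i j ≤
            ((La q : ℝ) + 1) ^ 4 * 2 ^ (7 * uu q) * (√((2:ℝ) ^ (b i + b' i)) / q) := by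
          unfold yy
          rw [← sum_filter]
          exact sumY hs (b i) (b' i) (b j) (b' j) (hb i) (hb' i) (hb j) (hb' j)
        exact le_trans (sum_le_sum_of_subset_of_nonneg (subset_univ C)
          (fun c _ _ => yy_nonneg c b b' i j)) h9
      refine (sum_le_sum h4).trans (le_of_eq ?_)
      rw [sum_const, card_univ, nsmul_eq_mul]
    refine (sum_le_sum this).trans (le_of_eq ?_)
    rw [hS, mul_sum]
    apply sum_congr rfl
    intro i _
    ring
  rw [hP']
  apply add_le_add t1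
  have h5 : S * ∑ c ∈ C, ∑ u, xx c b b' u + ∑ c ∈ C, ∑ i, ∑ j, yy c b b' i j ≤
      (16 * κ * ((La q : ℝ) + 1) ^ 2 + κ * ((La q : ℝ) + 1) ^ 4 * 2 ^ (7 * uu q)) * S := by
    have := mul_le_mul_of_nonneg_left t2 hS0
    nlinarith
  refine (mul_le_mul_of_nonneg_left h5 (by positivity)).trans (le_of_eq ?_)
  ring

/-- the case of two coordinates -/
theorem NP_le2 [Fact q.Prime] (hs : Suit q) (b b' : ι → ℕ)
    (hcard : Fintype.card ι = 2) (hb : ∀ a, b a < La q) (hb' : ∀ a, b' a < La q) :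
    ((NP (q := q) b b').card : ℝ) ≤ 2 ^ (7 * uu q) * ((2:ℝ) ^ (∑ a, (b a + b' a)) / (q:ℝ) ^ 1) := by
  classical
  have hq0 : (0 : ℝ) < q := by exact_mod_cast (Fact.out : q.Prime).pos
  rw [← card_univ] at hcard
  obtain ⟨u, v, huv, huniv⟩ := card_eq_two.mp hcard
  have hcases : ∀ a : ι, a = u ∨ a = v := by
    intro a
    have := mem_univ a
    rw [huniv, mem_insert, mem_singleton] at this
    exact this
  have h1 : (NP (q := q) b b').card ≤ (coinc q (b u) (b' u) (b v) (b' v)).card := by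
    refine card_le_card_of_injOn (fun p => ((p.1 u).valMinAbs, (p.2 * p.1 u).valMinAbs,
      (p.1 v).valMinAbs, (p.2 * p.1 v).valMinAbs)) ?_ ?_
    · rintro ⟨h, c⟩ hp
      rw [mem_coe] at hp
      unfold NP at hp
      rw [mem_filter] at hp
      obtain ⟨-, hc, ha, hnp⟩ := hp
      simp only at hc ha hnp
      refine mem_coinc c _ _ _ _ _ _ _ _ (vma_lt (ha u).2.1) (vma_lt (ha u).2.2)
        (vma_lt (ha v).2.1) (vma_lt (ha v).2.2) ?_ ?_ ?_
      · simp only [ZMod.coe_valMinAbs]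
      · simp only [ZMod.coe_valMinAbs]
      · intro he
        apply hnp
        intro i j
        rcases hcases i with rfl | rfl <;> rcases hcases j with rfl | rfl
        · ring
        · simp only
          linear_combination he
        · simp only
          linear_combination (-1 : ℤ) * he
        · ring
    · rintro ⟨h, c⟩ hp ⟨h', c'⟩ hp' he
      rw [mem_coe] at hp
      unfold NP at hp
      rw [mem_filter] at hp
      obtain ⟨-, hc, ha, hnp⟩ := hp
      simp only at hc ha hnp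
      simp only [Prod.mk.injEq] at he
      obtain ⟨e1, e2, e3, -⟩ := he
      have e1' := vma_inj e1
      have e3' := vma_inj e3
      have e2' := vma_inj e2
      rw [← e1'] at e2'
      have e4 := mul_right_cancel₀ (ha u).1 e2'
      rw [Prod.mk.injEq]
      refine ⟨?_, e4⟩
      funext a
      rcases hcases a with rfl | rfl
      · exact e1'
      · exact e3'
  have h2 := hs (b u) (b' u) (b v) (b' v) (hb u).le (hb' u).le (hb v).le (hb' v).le
  have h3 : (∑ a, (b a + b' a)) = b u + b' u + b v + b' v := by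
    rw [huniv, sum_pair huv]
    ring
  rw [h3, pow_one, ← mul_div_assoc, le_div_iff₀ hq0]
  refine le_trans ?_ h2
  apply mul_le_mul_of_nonneg_right _ hq0.le
  exact_mod_cast h1

theorem t_A1 : St_A1 := by
  intro κ hκ
  refine ⟨160 ^ κ * κ * 2112 + 128, ?_⟩
  intro q hq hs _ ι _ _ hcard b b'
  classical
  have hq0 : (0 : ℝ) < q := by exact_mod_cast (Fact.out : q.Prime).pos
  have hq2 : 2 ≤ q := (Fact.out : q.Prime).two_le
  have hL1 : 1 ≤ La q := by
    unfold La
    exact Nat.log_pos one_lt_two hq2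
  have hL1' : (1:ℝ) ≤ La q := by exact_mod_cast hL1
  obtain ⟨C, hC⟩ : ∃ C : ℕ, C = 160 ^ κ * κ * 2112 + 128 := ⟨_, rfl⟩
  rw [← hC]
  have hC128 : 128 ≤ C := by omega
  have hT1 : (0:ℝ) ≤ (2:ℝ) ^ (∑ a, (b a + b' a)) / (q:ℝ) ^ (κ - 1) := by positivity
  have hT2 : (0:ℝ) ≤ √((2:ℝ) ^ (∑ a, (b a + b' a))) * ∑ a, √((2:ℝ) ^ (b a + b' a)) / q := by
    positivity
  rcases (NP (q := q) b b').eq_empty_or_nonempty with he | ⟨⟨h, c⟩, hh⟩
  · rw [he]
    simp only [card_empty, Nat.cast_zero]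
    positivity
  unfold NP at hh
  rw [mem_filter] at hh
  obtain ⟨-, hc, ha, -⟩ := hh
  simp only at hc ha
  have hb : ∀ a, b a < La q := fun a => by
    rw [← (ha a).2.1]
    exact dl_lt hq2 _ (ha a).1
  have hb' : ∀ a, b' a < La q := fun a => by
    rw [← (ha a).2.2]
    exact dl_lt hq2 _ (mul_ne_zero hc (ha a).1)
  have huu : (2:ℝ) ^ (7 * uu q) ≤ 128 * (La q : ℝ) ^ 7 := by
    have h1 : (2:ℝ) ^ uu q ≤ 2 * La q := by exact_mod_cast uu_le q hq2
    rw [mul_comm 7, pow_mul]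
    calc ((2:ℝ) ^ uu q) ^ 7 ≤ (2 * La q) ^ 7 := by gcongr
      _ = 128 * (La q : ℝ) ^ 7 := by ring
  have hLC : ∀ n : ℕ, n ≤ C → (La q : ℝ) ^ n ≤ (La q : ℝ) ^ C := fun n hn =>
    pow_le_pow_right₀ hL1' hn
  have hCr : (C : ℝ) = 160 ^ κ * κ * 2112 + 128 := by
    rw [hC]
    push_cast
    ring
  have hκ0 : (0:ℝ) ≤ 160 ^ κ * κ := by positivity
  rcases Nat.lt_or_ge κ 3 with h3 | h3
  · have hk2 : κ = 2 := by omega
    have h1 := NP_le2 (q := q) hs b b' (hcard.trans hk2) hb hb'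
    rw [hk2] at hT1 ⊢
    refine h1.trans ?_
    have h4 : (2:ℝ) ^ (7 * uu q) ≤ C * (La q : ℝ) ^ C := by
      refine huu.trans ?_
      have : (128:ℝ) ≤ C := by exact_mod_cast hC128
      have h7 := hLC 7 (by omega)
      exact mul_le_mul this h7 (by positivity) (by positivity)
    rw [mul_add]
    refine le_trans (mul_le_mul_of_nonneg_right h4 hT1) (le_add_of_nonneg_right ?_)
    positivity
  · have h1 := NP_le3 (q := q) hs b b' (by omega) hb hb'
    rw [hcard] at h1
    refine h1.trans ?_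
    rw [mul_add ((C : ℝ) * (La q : ℝ) ^ C)]
    have hLC1 : (1:ℝ) ≤ (La q : ℝ) ^ C := one_le_pow₀ hL1'
    apply add_le_add
    · apply mul_le_mul_of_nonneg_right _ hT1
      have h5 : (4:ℝ) * κ * 160 ^ κ ≤ (C : ℝ) := by
        rw [hCr]
        generalize (160:ℝ) ^ κ = z at hκ0 ⊢
        linarith
      have hC0 : (0:ℝ) ≤ (C : ℝ) := Nat.cast_nonneg C
      exact h5.trans (le_mul_of_one_le_right hC0 hLC1)
    · apply mul_le_mul_of_nonneg_right _ hT2
      have hL2 : (La q : ℝ) + 1 ≤ 2 * La q := by linarith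
      have h6 : ((La q : ℝ) + 1) ^ 2 ≤ 4 * (La q : ℝ) ^ C := by
        calc ((La q : ℝ) + 1) ^ 2 ≤ (2 * La q) ^ 2 := by gcongr
          _ = 4 * (La q : ℝ) ^ 2 := by ring
          _ ≤ 4 * (La q : ℝ) ^ C := mul_le_mul_of_nonneg_left (hLC 2 (by omega)) (by norm_num)
      have h7 : ((La q : ℝ) + 1) ^ 4 * 2 ^ (7 * uu q) ≤ 2048 * (La q : ℝ) ^ C := by
        calc ((La q : ℝ) + 1) ^ 4 * 2 ^ (7 * uu q) ≤ (2 * La q) ^ 4 * (128 * (La q : ℝ) ^ 7) := by
              gcongr
          _ = 2048 * (La q : ℝ) ^ 11 := by ring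
          _ ≤ 2048 * (La q : ℝ) ^ C := mul_le_mul_of_nonneg_left (hLC 11 (by omega)) (by norm_num)
      calc (160:ℝ) ^ κ * (16 * κ * ((La q : ℝ) + 1) ^ 2 + κ * ((La q : ℝ) + 1) ^ 4 * 2 ^ (7 * uu q))
          = (160:ℝ) ^ κ * κ * (16 * ((La q : ℝ) + 1) ^ 2) +
            (160:ℝ) ^ κ * κ * (((La q : ℝ) + 1) ^ 4 * 2 ^ (7 * uu q)) := by ring
        _ ≤ (160:ℝ) ^ κ * κ * (16 * (4 * (La q : ℝ) ^ C)) +
            (160:ℝ) ^ κ * κ * (2048 * (La q : ℝ) ^ C) := by gcongr
        _ = (160:ℝ) ^ κ * κ * 2112 * (La q : ℝ) ^ C := by ring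
        _ ≤ C * (La q : ℝ) ^ C := by
            rw [hCr]
            apply mul_le_mul_of_nonneg_right _ (by positivity)
            linarith

end Pool.Agent.Y285.SD
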