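import Pool.Agent.Y258.SD.Stmts
import Pool.Agent.H935R2.PS.E4

set_option autoImplicit false

/-!
# Job A1 (helper285): lattice points `(x, c x)` in dyadic boxes, one coordinate
-/

namespace Pool.Agent.Y285.SD

open Finset Pool.Agent.H935R2.PS Pool.Agent.Y258
open Pool.Agent.H935R2.PS.E4 (SS mem_SS vma_lt vma_inj pt_mem cntl mem_coinc)

variable {q : ℕ}

open Classical in
/-- residues `x ≠ 0` with `dl x = b`, `dl (c x) = b'` -/
noncomputable def TT [Fact q.Prime] (c : ZMod q) (b b' : ℕ) : Finset (ZMod q) :=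
  univ.filter (fun x => x ≠ 0 ∧ dl x = b ∧ dl (c * x) = b')

theorem mem_TT [Fact q.Prime] (c : ZMod q) (b b' : ℕ) (x : ZMod q) :
    x ∈ TT c b b' ↔ x ≠ 0 ∧ dl x = b ∧ dl (c * x) = b' := by
  classical
  unfold TT
  rw [mem_filter]
  simp only [mem_univ, true_and]

/-- `g` generates the lattice points of the box -/
def Gen (c : ZMod q) (b b' : ℕ) (g : ℤ × ℤ) : Prop :=
  g ∈ SS c b b' ∧ g.1 ≠ 0 ∧ g.2 ≠ 0 ∧ ∀ p ∈ SS c b b', ∃ m : ℤ, p.1 = m * g.1 ∧ p.2 = m * g.2

/-- the box has a generator -/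
def HG (c : ZMod q) (b b' : ℕ) : Prop := ∃ g, Gen c b b' g

open Classical in
/-- a generator -/
noncomputable def gg (c : ZMod q) (b b' : ℕ) : ℤ × ℤ :=
  if h : HG c b b' then h.choose else (1, 1)

theorem gg_spec (c : ZMod q) (b b' : ℕ) (h : HG c b b') : Gen c b b' (gg c b b') := by
  unfold gg
  rw [dif_pos h]
  exact h.choose_spec

/-- dyadic size of the first coordinate of the generator -/
noncomputable def s1 (c : ZMod q) (b b' : ℕ) : ℕ := Nat.log 2 (gg c b b').1.natAbs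

/-- dyadic size of the second coordinate of the generator -/
noncomputable def s2 (c : ZMod q) (b b' : ℕ) : ℕ := Nat.log 2 (gg c b b').2.natAbs

/-- the size of the generator -/
noncomputable def rr (c : ZMod q) (b b' : ℕ) : ℝ := 1 / √(2 ^ (s1 c b b' + s2 c b b'))

theorem rr_pos (c : ZMod q) (b b' : ℕ) : 0 < rr c b b' := by
  unfold rr
  positivity

theorem rr_le_one (c : ZMod q) (b b' : ℕ) : rr c b b' ≤ 1 := by
  unfold rr
  rw [div_le_one (by positivity)]
  rw [Real.one_le_sqrt]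
  exact one_le_pow₀ (by norm_num)

theorem rr_sq (c : ZMod q) (b b' : ℕ) : rr c b b' ^ 2 = 1 / 2 ^ (s1 c b b' + s2 c b b') := by
  unfold rr
  rw [div_pow, one_pow, Real.sq_sqrt (by positivity)]

theorem s1_le (c : ZMod q) (b b' : ℕ) (h : HG c b b') : s1 c b b' ≤ b := by
  obtain ⟨h1, h2, -, -⟩ := gg_spec c b b' h
  rw [mem_SS] at h1
  have h3 : (gg c b b').1.natAbs ≠ 0 := Int.natAbs_ne_zero.mpr h2
  have := (Nat.log_lt_iff_lt_pow one_lt_two h3).mpr h1.1
  unfold s1
  omega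

theorem s2_le (c : ZMod q) (b b' : ℕ) (h : HG c b b') : s2 c b b' ≤ b' := by
  obtain ⟨h1, -, h2, -⟩ := gg_spec c b b' h
  rw [mem_SS] at h1
  have h3 : (gg c b b').2.natAbs ≠ 0 := Int.natAbs_ne_zero.mpr h2
  have := (Nat.log_lt_iff_lt_pow one_lt_two h3).mpr h1.2.1
  unfold s2
  omega

theorem TT_card_le [Fact q.Prime] (c : ZMod q) (b b' : ℕ) : (TT c b b').card ≤ (SS c b b').card := by
  refine card_le_card_of_injOn (fun x => (x.valMinAbs, (c * x).valMinAbs)) ?_ ?_
  · intro x hx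
    rw [mem_coe, mem_TT] at hx
    exact pt_mem hx.2.1 hx.2.2
  · intro x _ y _ h
    simp only [Prod.mk.injEq] at h
    exact vma_inj h.1

/-- dichotomy -/
theorem dich [Fact q.Prime] (c : ZMod q) (hc : c ≠ 0) (b b' : ℕ) (hb : b < La q) (hb' : b' < La q)
    (hne : (TT c b b').Nonempty) :
    HG c b b' ∨ ((TT c b b').card : ℝ) ≤ 160 * 2 ^ (b + b') / q := by
  have hq0 : (0 : ℝ) < q := by exact_mod_cast (Fact.out : q.Prime).pos
  obtain ⟨x, hx⟩ := hne
  rw [mem_TT] at hx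
  obtain ⟨hx0, hx1, hx2⟩ := hx
  have hmem := pt_mem hx1 hx2
  have hV : 2 ^ (b + 1) ≤ q := (Nat.pow_le_pow_right (by norm_num) (by omega)).trans La_le
  have hV' : 2 ^ (b' + 1) ≤ q := (Nat.pow_le_pow_right (by norm_num) (by omega)).trans La_le
  have hcx : c * x ≠ 0 := mul_ne_zero hc hx0
  rcases dichot c (2 ^ (b + 1)) (2 ^ (b' + 1)) hV hV' (SS c b b') (fun p => mem_SS c b b' p) with
    ⟨g, hg, hgen⟩ | h | h
  · left
    obtain ⟨m, h1, h2⟩ := hgen _ hmem
    refine ⟨g, hg, ?_, ?_, hgen⟩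
    · intro h
      rw [h, mul_zero] at h1
      exact hx0 ((ZMod.valMinAbs_eq_zero x).mp h1)
    · intro h
      rw [h, mul_zero] at h2
      exact hcx ((ZMod.valMinAbs_eq_zero _).mp h2)
  · rw [h] at hmem
    simp at hmem
  · right
    have h1 : ((TT c b b').card : ℝ) ≤ ((SS c b b').card : ℝ) := by
      exact_mod_cast TT_card_le c b b'
    rw [le_div_iff₀ hq0]
    have h2 := mul_le_mul_of_nonneg_right h1 hq0.le
    refine h2.trans (h.trans (le_of_eq ?_))
    push_cast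
    rw [pow_add]
    ring

open Classical in
/-- the factor of one coordinate -/
noncomputable def th (c : ZMod q) (b b' : ℕ) : ℝ :=
  if HG c b b' then rr c b b' else √(2 ^ (b + b')) / q

theorem th_pos [Fact q.Prime] (c : ZMod q) (b b' : ℕ) : 0 < th c b b' := by
  have hq0 : (0 : ℝ) < q := by exact_mod_cast (Fact.out : q.Prime).pos
  unfold th
  split_ifs
  · exact rr_pos _ _ _
  · positivity

theorem sqrt_le_q [Fact q.Prime] (b b' : ℕ) (hb : b < La q) (hb' : b' < La q) :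
    √((2:ℝ) ^ (b + b')) ≤ q := by
  apply Real.sqrt_le_iff.mpr
  refine ⟨by positivity, ?_⟩
  have h1 : (2:ℝ) ^ b ≤ q := by
    have : 2 ^ b ≤ q := (Nat.pow_le_pow_right (by norm_num) hb.le).trans La_le
    exact_mod_cast this
  have h2 : (2:ℝ) ^ b' ≤ q := by
    have : 2 ^ b' ≤ q := (Nat.pow_le_pow_right (by norm_num) hb'.le).trans La_le
    exact_mod_cast this
  rw [pow_add, sq]
  exact mul_le_mul h1 h2 (by positivity) (by positivity)

theorem th_le_one [Fact q.Prime] (c : ZMod q) (b b' : ℕ) (hb : b < La q) (hb' : b' < La q) :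
    th c b b' ≤ 1 := by
  have hq0 : (0 : ℝ) < q := by exact_mod_cast (Fact.out : q.Prime).pos
  unfold th
  split_ifs
  · exact rr_le_one _ _ _
  · rw [div_le_one hq0]
    exact sqrt_le_q b b' hb hb'

theorem tau_le [Fact q.Prime] (c : ZMod q) (hc : c ≠ 0) (b b' : ℕ) (hb : b < La q) (hb' : b' < La q)
    (hne : (TT c b b').Nonempty) :
    ((TT c b b').card : ℝ) ≤ 160 * √(2 ^ (b + b')) * th c b b' := by
  have hq0 : (0 : ℝ) < q := by exact_mod_cast (Fact.out : q.Prime).pos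
  unfold th
  split_ifs with hH
  · obtain ⟨h1, h2, h3, h4⟩ := gg_spec c b b' hH
    have := cntl c b b' (s1 c b b') (s2 c b b') (gg c b b')
      (Nat.pow_log_le_self 2 (Int.natAbs_ne_zero.mpr h2))
      (Nat.pow_log_le_self 2 (Int.natAbs_ne_zero.mpr h3)) h4 (TT c b b')
      (fun x hx => (mem_TT c b b' x).mp hx)
    refine this.trans ?_
    unfold rr
    rw [mul_one_div]
    gcongr
    norm_num
  · rcases dich c hc b b' hb hb' hne with h | h
    · exact absurd h hH
    · refine h.trans (le_of_eq ?_)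
      rw [← mul_div_assoc, mul_assoc, Real.mul_self_sqrt (by positivity)]

/-- the number of slopes with a generator of given size -/
theorem card_slopes [Fact q.Prime] (b b' s t : ℕ) (hb : b < La q) (C : Finset (ZMod q))
    (hC : ∀ c ∈ C, HG c b b' ∧ s1 c b b' = s ∧ s2 c b b' = t) :
    (C.card : ℝ) ≤ 16 * 2 ^ (s + t) := by
  have h1 : C.card ≤ ((Ioo (-(2 ^ (s + 1) : ℤ)) (2 ^ (s + 1))) ×ˢ
      (Ioo (-(2 ^ (t + 1) : ℤ)) (2 ^ (t + 1)))).card := by
    refine card_le_card_of_injOn (fun c => gg c b b') ?_ ?_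
    · intro c hc
      obtain ⟨hH, e1, e2⟩ := hC c hc
      rw [mem_coe, mem_product, E4.mem_box, E4.mem_box, ← e1, ← e2]
      exact ⟨Nat.lt_pow_succ_log_self one_lt_two _, Nat.lt_pow_succ_log_self one_lt_two _⟩
    · intro c hc c' hc' he
      obtain ⟨hH, -, -⟩ := hC c hc
      obtain ⟨hH', -, -⟩ := hC c' hc'
      obtain ⟨h1, h2, -, -⟩ := gg_spec c b b' hH
      obtain ⟨h1', h2', -, -⟩ := gg_spec c' b b' hH'
      simp only at he
      rw [mem_SS] at h1 h1'
      rw [← he] at h1'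
      have h3 := h1.2.2
      rw [h1'.2.2] at h3
      have hV : 2 ^ (b + 1) ≤ q := (Nat.pow_le_pow_right (by norm_num) (by omega)).trans La_le
      have hne : ((gg c b b').1 : ZMod q) ≠ 0 := by
        rw [Ne, ZMod.intCast_zmod_eq_zero_iff_dvd]
        intro hd
        apply h2
        refine Int.eq_zero_of_abs_lt_dvd hd ?_
        rw [Int.abs_eq_natAbs]
        exact_mod_cast lt_of_lt_of_le h1.1 hV
      exact (mul_right_cancel₀ hne h3).symm
  rw [card_product] at h1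
  have h2 : ∀ n : ℕ, (Ioo (-(2 ^ n : ℤ)) (2 ^ n)).card ≤ 2 * 2 ^ n := by
    intro n
    rw [Int.card_Ioo]
    have : ((2 ^ n : ℕ) : ℤ) = 2 ^ n := by push_cast; rfl
    rw [← this]
    omega
  have h3 := h1.trans (Nat.mul_le_mul (h2 (s + 1)) (h2 (t + 1)))
  have h4 : (C.card : ℝ) ≤ ((2 * 2 ^ (s + 1) * (2 * 2 ^ (t + 1)) : ℕ) : ℝ) := by exact_mod_cast h3
  refine h4.trans (le_of_eq ?_)
  push_cast
  rw [pow_add]
  ring

end Pool.Agent.Y285.SD
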