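import Pool.Agent.Y285.SD.A1a

set_option autoImplicit false

/-!
# Job A1 (helper285): sums over the slopes
-/

namespace Pool.Agent.Y285.SD

open Finset Pool.Agent.H935R2.PS Pool.Agent.Y258
open Pool.Agent.H935R2.PS.E4 (SS mem_SS vma_lt vma_inj pt_mem cntl mem_coinc)

variable {q : ℕ}

open Classical in
theorem sumX [Fact q.Prime] (b b' : ℕ) (hb : b < La q) (hb' : b' < La q) :
    ∑ c ∈ (univ : Finset (ZMod q)).filter (fun c => HG c b b'), rr c b b' ^ 2 ≤
      16 * ((La q : ℝ) + 1) ^ 2 := by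
  set C := (univ : Finset (ZMod q)).filter (fun c => HG c b b') with hC
  have hmap : ∀ c ∈ C, (s1 c b b', s2 c b b') ∈ range (La q + 1) ×ˢ range (La q + 1) := by
    intro c hc
    rw [hC, mem_filter] at hc
    rw [mem_product, mem_range, mem_range]
    have h1 := s1_le c b b' hc.2
    have h2 := s2_le c b b' hc.2
    constructor <;> simp only <;> omega
  rw [← Finset.sum_fiberwise_of_maps_to hmap]
  have h1 : ∀ y ∈ range (La q + 1) ×ˢ range (La q + 1),
      ∑ c ∈ C.filter (fun c => (s1 c b b', s2 c b b') = y), rr c b b' ^ 2 ≤ 16 := by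
    rintro ⟨s, t⟩ _
    have h2 : ∀ c ∈ C.filter (fun c => (s1 c b b', s2 c b b') = (s, t)),
        HG c b b' ∧ s1 c b b' = s ∧ s2 c b b' = t := by
      intro c hc
      rw [mem_filter, hC, mem_filter, Prod.mk.injEq] at hc
      exact ⟨hc.1.2, hc.2.1, hc.2.2⟩
    have h3 : ∀ c ∈ C.filter (fun c => (s1 c b b', s2 c b b') = (s, t)),
        rr c b b' ^ 2 = 1 / 2 ^ (s + t) := by
      intro c hc
      obtain ⟨-, e1, e2⟩ := h2 c hc
      rw [rr_sq, e1, e2]
    rw [sum_congr rfl h3, sum_const, nsmul_eq_mul]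
    have h4 := card_slopes b b' s t hb _ h2
    rw [mul_one_div, div_le_iff₀ (by positivity)]
    exact h4
  refine (sum_le_sum h1).trans (le_of_eq ?_)
  rw [sum_const, card_product, card_range, nsmul_eq_mul]
  push_cast
  ring

/-- the generators of two boxes are not parallel -/
def NPg (c : ZMod q) (b1 b1' b2 b2' : ℕ) : Prop :=
  (gg c b1 b1').1 * (gg c b2 b2').2 ≠ (gg c b1 b1').2 * (gg c b2 b2').1

open Classical in
theorem sumY [Fact q.Prime] (hs : Suit q) (b1 b1' b2 b2' : ℕ) (hb1 : b1 < La q) (hb1' : b1' < La q)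
    (hb2 : b2 < La q) (hb2' : b2' < La q) :
    ∑ c ∈ (univ : Finset (ZMod q)).filter (fun c => HG c b1 b1' ∧ HG c b2 b2' ∧ NPg c b1 b1' b2 b2'),
      rr c b1 b1' * rr c b2 b2' ^ 2 ≤
      ((La q : ℝ) + 1) ^ 4 * 2 ^ (7 * uu q) * (√(2 ^ (b1 + b1')) / q) := by
  have hq0 : (0 : ℝ) < q := by exact_mod_cast (Fact.out : q.Prime).pos
  set C := (univ : Finset (ZMod q)).filter
    (fun c => HG c b1 b1' ∧ HG c b2 b2' ∧ NPg c b1 b1' b2 b2') with hC
  set R := range (La q + 1) with hR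
  have hmap : ∀ c ∈ C, (s1 c b1 b1', s2 c b1 b1', s1 c b2 b2', s2 c b2 b2') ∈
      R ×ˢ R ×ˢ R ×ˢ R := by
    intro c hc
    rw [hC, mem_filter] at hc
    rw [mem_product, mem_product, mem_product, hR, mem_range, mem_range, mem_range, mem_range]
    have h1 := s1_le c b1 b1' hc.2.1
    have h2 := s2_le c b1 b1' hc.2.1
    have h3 := s1_le c b2 b2' hc.2.2.1
    have h4 := s2_le c b2 b2' hc.2.2.1
    refine ⟨?_, ?_, ?_, ?_⟩ <;> simp only <;> omega
  rw [← Finset.sum_fiberwise_of_maps_to hmap]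
  have h1 : ∀ y ∈ R ×ˢ R ×ˢ R ×ˢ R,
      ∑ c ∈ C.filter (fun c => (s1 c b1 b1', s2 c b1 b1', s1 c b2 b2', s2 c b2 b2') = y),
        rr c b1 b1' * rr c b2 b2' ^ 2 ≤ 2 ^ (7 * uu q) * (√(2 ^ (b1 + b1')) / q) := by
    rintro ⟨s, t, s', t'⟩ hy
    set F := C.filter (fun c => (s1 c b1 b1', s2 c b1 b1', s1 c b2 b2', s2 c b2 b2') =
      (s, t, s', t')) with hF
    rcases F.eq_empty_or_nonempty with hFe | ⟨c0, hc0⟩
    · rw [hFe, sum_empty]
      positivity
    have h2 : ∀ c ∈ F, HG c b1 b1' ∧ HG c b2 b2' ∧ NPg c b1 b1' b2 b2' ∧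
        s1 c b1 b1' = s ∧ s2 c b1 b1' = t ∧ s1 c b2 b2' = s' ∧ s2 c b2 b2' = t' := by
      intro c hc
      rw [hF, mem_filter, hC, mem_filter, Prod.mk.injEq, Prod.mk.injEq, Prod.mk.injEq] at hc
      exact ⟨hc.1.2.1, hc.1.2.2.1, hc.1.2.2.2, hc.2.1, hc.2.2.1, hc.2.2.2.1, hc.2.2.2.2⟩
    have h3 : ∀ c ∈ F, rr c b1 b1' * rr c b2 b2' ^ 2 = 1 / √(2 ^ (s + t)) * (1 / 2 ^ (s' + t')) := by
      intro c hc
      obtain ⟨-, -, -, e1, e2, e3, e4⟩ := h2 c hc
      rw [rr_sq, e3, e4]
      unfold rr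
      rw [e1, e2]
    rw [sum_congr rfl h3, sum_const, nsmul_eq_mul]
    rw [mem_product, mem_product, mem_product, hR, mem_range, mem_range, mem_range, mem_range] at hy
    simp only at hy
    have hsu := hs s t s' t' (by omega) (by omega) (by omega) (by omega)
    have hcard : F.card ≤ (coinc q s t s' t').card := by
      refine card_le_card_of_injOn
        (fun c => ((gg c b1 b1').1, (gg c b1 b1').2, (gg c b2 b2').1, (gg c b2 b2').2)) ?_ ?_
      · intro c hc
        obtain ⟨hH, hH', hNP, e1, e2, e3, e4⟩ := h2 c hc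
        have g1 := gg_spec c b1 b1' hH
        have g2 := gg_spec c b2 b2' hH'
        have m1 := (mem_SS c b1 b1' _).mp g1.1
        have m2 := (mem_SS c b2 b2' _).mp g2.1
        refine mem_coinc c _ _ _ _ _ _ _ _ ?_ ?_ ?_ ?_ m1.2.2 m2.2.2 hNP
        · rw [← e1]; exact Nat.lt_pow_succ_log_self one_lt_two _
        · rw [← e2]; exact Nat.lt_pow_succ_log_self one_lt_two _
        · rw [← e3]; exact Nat.lt_pow_succ_log_self one_lt_two _
        · rw [← e4]; exact Nat.lt_pow_succ_log_self one_lt_two _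
      · intro c hc c' hc' he
        simp only [Prod.mk.injEq] at he
        obtain ⟨e1, e2, -, -⟩ := he
        obtain ⟨hH, -⟩ := h2 c hc
        obtain ⟨hH', -⟩ := h2 c' hc'
        obtain ⟨h1, h2, -, -⟩ := gg_spec c b1 b1' hH
        obtain ⟨h1', h2', -, -⟩ := gg_spec c' b1 b1' hH'
        rw [mem_SS] at h1 h1'
        rw [← e1, ← e2] at h1'
        have h3 := h1.2.2
        rw [h1'.2.2] at h3
        have hV : 2 ^ (b1 + 1) ≤ q := (Nat.pow_le_pow_right (by norm_num) (by omega)).trans La_le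
        have hne : ((gg c b1 b1').1 : ZMod q) ≠ 0 := by
          rw [Ne, ZMod.intCast_zmod_eq_zero_iff_dvd]
          intro hd
          apply h2
          refine Int.eq_zero_of_abs_lt_dvd hd ?_
          rw [Int.abs_eq_natAbs]
          exact_mod_cast lt_of_lt_of_le h1.1 hV
        exact (mul_right_cancel₀ hne h3).symm
    have h4 : (F.card : ℝ) ≤ 2 ^ (7 * uu q) * 2 ^ (s + t + s' + t') / q := by
      rw [le_div_iff₀ hq0]
      refine le_trans ?_ hsu
      have : (F.card : ℝ) ≤ ((coinc q s t s' t').card : ℝ) := by exact_mod_cast hcard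
      exact mul_le_mul_of_nonneg_right this hq0.le
    have h5 : √((2:ℝ) ^ (s + t)) ≤ √(2 ^ (b1 + b1')) := by
      apply Real.sqrt_le_sqrt
      obtain ⟨hH, -, -, e1, e2, -, -⟩ := h2 c0 hc0
      have := s1_le c0 b1 b1' hH
      have := s2_le c0 b1 b1' hH
      exact pow_le_pow_right₀ (by norm_num) (by omega)
    have h6 : (0:ℝ) < √(2 ^ (s + t)) := by positivity
    calc (F.card : ℝ) * (1 / √(2 ^ (s + t)) * (1 / 2 ^ (s' + t')))
        ≤ 2 ^ (7 * uu q) * 2 ^ (s + t + s' + t') / q * (1 / √(2 ^ (s + t)) * (1 / 2 ^ (s' + t'))) :=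
          mul_le_mul_of_nonneg_right h4 (by positivity)
      _ = 2 ^ (7 * uu q) * (√(2 ^ (s + t)) / q) := by
          have e : (2:ℝ) ^ (s + t + s' + t') = √(2 ^ (s + t)) * √(2 ^ (s + t)) * 2 ^ (s' + t') := by
            rw [Real.mul_self_sqrt (by positivity), ← pow_add]
            congr 1
            ring
          rw [e]
          field_simp
      _ ≤ _ := by gcongr
  refine (sum_le_sum h1).trans (le_of_eq ?_)
  rw [sum_const, card_product, card_product, card_product, hR, card_range, nsmul_eq_mul]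
  push_cast
  ring

open Classical in
/-- the first moment of the number of points -/
theorem sumT [Fact q.Prime] (b b' : ℕ) :
    ∑ c ∈ (univ : Finset (ZMod q)).filter (fun c => c ≠ 0), ((TT c b b').card : ℝ) ≤
      4 * 2 ^ (b + b') := by
  have h1 : ∑ c ∈ (univ : Finset (ZMod q)).filter (fun c => c ≠ 0), (TT c b b').card ≤
      ((univ : Finset (ZMod q)).filter (fun x => x ≠ 0 ∧ dl x = b)).card *
      ((univ : Finset (ZMod q)).filter (fun x => x ≠ 0 ∧ dl x = b')).card := by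
    rw [← card_sigma, ← card_product]
    refine card_le_card_of_injOn (fun p => (p.2, p.1 * p.2)) ?_ ?_
    · rintro ⟨c, x⟩ hp
      rw [mem_coe, mem_sigma, mem_filter, mem_TT] at hp
      simp only [mem_univ, true_and] at hp
      rw [mem_coe, mem_product, mem_filter, mem_filter]
      simp only [mem_univ, true_and]
      exact ⟨⟨hp.2.1, hp.2.2.1⟩, mul_ne_zero hp.1 hp.2.1, hp.2.2.2⟩
    · rintro ⟨c, x⟩ hp ⟨c', x'⟩ hp' he
      rw [mem_coe, mem_sigma, mem_filter, mem_TT] at hp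
      simp only [Prod.mk.injEq] at he
      obtain ⟨e1, e2⟩ := he
      subst e1
      have := mul_right_cancel₀ hp.2.1 e2
      subst this
      rfl
  have h2 := h1.trans (Nat.mul_le_mul (card_dl b) (card_dl b'))
  have h3 : ((∑ c ∈ (univ : Finset (ZMod q)).filter (fun c => c ≠ 0), (TT c b b').card : ℕ) : ℝ) ≤
      ((2 ^ (b + 1) * 2 ^ (b' + 1) : ℕ) : ℝ) := by exact_mod_cast h2
  push_cast at h3
  refine h3.trans (le_of_eq ?_)
  rw [pow_add]
  ring

end Pool.Agent.Y285.SD
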